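import Pool.Agent.FQR.Dual

/-!
# Double coverings and their sign characters

`q : B → S` is a double covering of `G`-sets: the fibres are `{b, ν b}` with `ν b ≠ b`. A normal
subgroup `N` which fixes all points of `S` acts on the fibres by characters `sgn s : N → ±1`.
`exists_map`: the map given by a reciprocity law.
-/

set_option autoImplicit false

namespace Pool.Agent.FQR

open Finset

section Cover

variable {G : Type*} [Group G] {B S : Type*} [MulAction G B] [MulAction G S]

/-- `q : B → S` is a double covering of `G`-sets with the covering involution `ν`. -/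
structure IsDouble (G : Type*) [Group G] {B S : Type*} [MulAction G B] [MulAction G S] (q : B → S)
    (ν : B → B) : Prop where
  q_smul : ∀ (g : G) b, q (g • b) = g • q b
  ν_smul : ∀ (g : G) b, ν (g • b) = g • ν b
  surj : Function.Surjective q
  q_ν : ∀ b, q (ν b) = q b
  ν_ne : ∀ b, ν b ≠ b
  fib : ∀ b b', q b' = q b → b' = b ∨ b' = ν b

variable {q : B → S} {ν : B → B} {N : Subgroup G}

theorem IsDouble.νν (h : IsDouble G q ν) (b : B) : ν (ν b) = b := by
  rcases h.fib (ν b) b (h.q_ν b).symm with h1 | h1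
  · exact absurd h1.symm (h.ν_ne b)
  · exact h1.symm

/-- an element over `s` -/
noncomputable def IsDouble.pt (h : IsDouble G q ν) (s : S) : B := (h.surj s).choose

theorem IsDouble.q_pt (h : IsDouble G q ν) (s : S) : q (h.pt s) = s := (h.surj s).choose_spec

open Classical in
/-- the sign of the action on the fibre over `s` -/
noncomputable def IsDouble.sgn (h : IsDouble G q ν) (hN : ∀ γ ∈ N, ∀ s : S, γ • s = s) (s : S) :
    N →* ℤˣ where
  toFun γ := if (γ : G) • h.pt s = h.pt s then 1 else -1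
  map_one' := by
    rw [if_pos]
    rw [Subgroup.coe_one, one_smul]
  map_mul' γ δ := by
    have key : ∀ γ : N, ¬ (γ : G) • h.pt s = h.pt s → (γ : G) • h.pt s = ν (h.pt s) := by
      intro γ h1
      have h2 : q ((γ : G) • h.pt s) = q (h.pt s) := by
        rw [h.q_smul, h.q_pt, hN _ γ.2]
      exact (h.fib _ _ h2).resolve_left h1
    have hmul : ((γ * δ : N) : G) • h.pt s = (γ : G) • (δ : G) • h.pt s := by
      rw [Subgroup.coe_mul, mul_smul]
    by_cases h1 : (δ : G) • h.pt s = h.pt s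
    · rw [if_pos h1, mul_one, hmul, h1]
    · rw [if_neg h1, hmul, key δ h1, ← h.ν_smul]
      by_cases h2 : (γ : G) • h.pt s = h.pt s
      · rw [if_pos h2, h2, one_mul, if_neg (h.ν_ne _)]
      · rw [if_neg h2, key γ h2, h.νν, if_pos rfl]
        decide

theorem IsDouble.sgn_eq_one (h : IsDouble G q ν) (hN : ∀ γ ∈ N, ∀ s : S, γ • s = s) (γ : N)
    (b : B) : h.sgn hN (q b) γ = 1 ↔ (γ : G) • b = b := by
  classical
  have h0 : h.sgn hN (q b) γ = if (γ : G) • h.pt (q b) = h.pt (q b) then 1 else -1 := rfl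
  rcases h.fib _ _ (h.q_pt (q b)) with h1 | h1
  · rw [h0, h1]
    by_cases h2 : (γ : G) • b = b
    · rw [if_pos h2]
      exact ⟨fun _ => h2, fun _ => rfl⟩
    · rw [if_neg h2]
      exact ⟨fun h3 => absurd h3 (by decide), fun h3 => absurd h3 h2⟩
  · have h4 : (γ : G) • h.pt (q b) = h.pt (q b) ↔ (γ : G) • b = b := by
      rw [h1, ← h.ν_smul]
      constructor
      · intro h5
        rw [← h.νν ((γ : G) • b), h5, h.νν]
      · intro h5
        rw [h5]
    rw [h0]
    by_cases h2 : (γ : G) • b = b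
    · rw [if_pos (h4.2 h2)]
      exact ⟨fun _ => h2, fun _ => rfl⟩
    · rw [if_neg (fun h3 => h2 (h4.1 h3))]
      exact ⟨fun h3 => absurd h3 (by decide), fun h3 => absurd h3 h2⟩

theorem IsDouble.sgn_eq_neg_one (h : IsDouble G q ν) (hN : ∀ γ ∈ N, ∀ s : S, γ • s = s) (γ : N)
    (b : B) : h.sgn hN (q b) γ = -1 ↔ (γ : G) • b = ν b := by
  have h1 := h.sgn_eq_one hN γ b
  have h2 : q ((γ : G) • b) = q b := by rw [h.q_smul, hN _ γ.2]
  constructor
  · intro h3
    refine (h.fib _ _ h2).resolve_left fun h4 => ?_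
    rw [h1.2 h4] at h3
    exact absurd h3 (by decide)
  · intro h3
    rcases Int.units_eq_one_or (h.sgn hN (q b) γ) with h4 | h4
    · rw [h1.1 h4] at h3
      exact absurd h3.symm (h.ν_ne b)
    · exact h4

theorem IsDouble.sgn_conj (h : IsDouble G q ν) [N.Normal] (hN : ∀ γ ∈ N, ∀ s : S, γ • s = s)
    (g : G) (s : S) (γ : N) :
    h.sgn hN (g • s) (MulAut.conjNormal g γ) = h.sgn hN s γ := by
  obtain ⟨b, rfl⟩ := h.surj s
  rw [← h.q_smul]
  have h1 := h.sgn_eq_one hN (MulAut.conjNormal g γ) (g • b)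
  have h2 := h.sgn_eq_one hN γ b
  have h3 : ((MulAut.conjNormal g γ : N) : G) • g • b = g • b ↔ (γ : G) • b = b := by
    rw [MulAut.conjNormal_apply, smul_smul, mul_assoc, mul_assoc, inv_mul_cancel, mul_one,
      ← smul_smul]
    exact ⟨fun h4 => MulAction.injective g h4, fun h4 => by rw [h4]⟩
  rcases Int.units_eq_one_or (h.sgn hN (q b) γ) with h4 | h4
  · rw [h4]
    exact h1.2 (h3.2 (h2.1 h4))
  · rw [h4]
    rcases Int.units_eq_one_or (h.sgn hN (q (g • b)) (MulAut.conjNormal g γ)) with h5 | h5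
    · rw [h2.2 (h3.1 (h1.1 h5))] at h4
      exact absurd h4 (by decide)
    · exact h5

end Cover

section Map

variable {G : Type*} [Group G] {J T S BJ BS : Type*} [Fintype J] [DecidableEq S]
  [MulAction G J] [MulAction G T] [MulAction G S] [MulAction G BJ] [MulAction G BS]

/-- The map given by a reciprocity law. -/
theorem exists_map (N : Subgroup G) [N.Normal] {p : S → T} (hp : ∀ (g : G) s, p (g • s) = g • p s)
    {qJ : BJ → J} {νJ : BJ → BJ} (hJ : IsDouble G qJ νJ) {qS : BS → S} {νS : BS → BS}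
    (hS : IsDouble G qS νS) (hNJ : ∀ γ ∈ N, ∀ j : J, γ • j = j) (hNS : ∀ γ ∈ N, ∀ s : S, γ • s = s)
    (hdual : ∀ j₀ : J, ∃ γ : N, hJ.sgn hNJ j₀ γ = -1 ∧ ∀ j, j ≠ j₀ → hJ.sgn hNJ j γ = 1)
    (hrec : ∀ γ : N, ∃ m : J → T → S, (∀ j t, p (m j t) = t) ∧
      ∀ s, hS.sgn hNS s γ = pr p (hJ.sgn hNJ) m s γ) :
    ∃ m : J → T → S, (∀ j t, p (m j t) = t) ∧ (∀ (g : G) j t, m (g • j) (g • t) = g • m j t) ∧
      ∀ (γ : N) s, hS.sgn hNS s γ = pr p (hJ.sgn hNJ) m s γ := by
  obtain ⟨m, hm1, hm2⟩ := exists_uniform p (hJ.sgn hNJ) (hS.sgn hNS) hdual hrec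
  exact ⟨m, hm1, equivariant N hp (fun g j γ => hJ.sgn_conj hNJ g j γ)
    (fun g s γ => hS.sgn_conj hNS g s γ) hdual hm1 hm2, hm2⟩

end Map

end Pool.Agent.FQR
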