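import Mathlib

/-!
# Quadratic characters: from pointwise to uniform choices

`Γ` is a group, `η j` (`j ∈ J`, finite) are independent characters with values `±1` (there are dual
elements), `ε s` (`s ∈ S`, with a map `p : S → T`) are characters with values `±1`. If for every
`γ` there is a map `m : J × T → S` over `T` such that `ε s γ` is the product of the `η j γ` over the
`j` with `m (j, p s) = s`, then there is one map for all `γ`; it is unique and compatible with group
actions.
-/

set_option autoImplicit false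

namespace Pool.Agent.FQR

open Finset

section Dual

variable {Γ : Type*} [Group Γ] {J T S : Type*} [Fintype J] [DecidableEq S]

/-- the product of the `η j γ` over the `j` with `m j (p s) = s` -/
def pr (p : S → T) (η : J → Γ →* ℤˣ) (m : J → T → S) (s : S) (γ : Γ) : ℤˣ :=
  ∏ j, if m j (p s) = s then η j γ else 1

theorem pr_dual [DecidableEq J] {p : S → T} {η : J → Γ →* ℤˣ} {m : J → T → S} {s : S} {γ : Γ}
    {j₀ : J} (h : ∀ j, η j γ = if j = j₀ then -1 else 1) :
    pr p η m s γ = if m j₀ (p s) = s then -1 else 1 := by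
  unfold pr
  rw [Finset.prod_eq_single j₀]
  · rw [h, if_pos rfl]
  · intro j _ hj
    rw [h, if_neg hj, ite_self]
  · intro hj
    exact absurd (mem_univ _) hj

theorem exists_uniform (p : S → T) (η : J → Γ →* ℤˣ) (ε : S → Γ →* ℤˣ)
    (hdual : ∀ j₀ : J, ∃ γ : Γ, η j₀ γ = -1 ∧ ∀ j, j ≠ j₀ → η j γ = 1)
    (h : ∀ γ : Γ, ∃ m : J → T → S, (∀ j t, p (m j t) = t) ∧ ∀ s, ε s γ = pr p η m s γ) :
    ∃ m : J → T → S, (∀ j t, p (m j t) = t) ∧ ∀ γ s, ε s γ = pr p η m s γ := by
  classical
  choose δ hδ1 hδ2 using hdual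
  have hδ : ∀ j₀ j, η j (δ j₀) = if j = j₀ then -1 else 1 := by
    intro j₀ j
    by_cases hj : j = j₀
    · rw [if_pos hj, hj, hδ1]
    · rw [if_neg hj, hδ2 _ _ hj]
  choose M hM1 hM2 using h
  refine ⟨fun j t => M (δ j) j t, fun j t => hM1 _ _ _, fun γ s => ?_⟩
  -- the element with the same values of the `η j`
  set L := (univ : Finset J).toList with hL
  set d : Γ := (L.map fun j => if η j γ = -1 then δ j else 1).prod with hd
  have hmap : ∀ φ : Γ →* ℤˣ, φ d = ∏ j, if η j γ = -1 then φ (δ j) else 1 := by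
    intro φ
    rw [hd, map_list_prod, List.map_map]
    rw [← Finset.prod_map_toList]
    congr 1
    refine List.map_congr_left fun j _ => ?_
    simp only [Function.comp]
    split_ifs
    · rfl
    · exact map_one φ
  have hηd : ∀ j, η j d = η j γ := by
    intro j
    rw [hmap, Finset.prod_eq_single j]
    · rcases Int.units_eq_one_or (η j γ) with h1 | h1
      · rw [h1, if_neg (by decide)]
      · rw [h1, if_pos rfl, hδ, if_pos rfl]
    · intro j' _ hj'
      rw [hδ, if_neg (Ne.symm hj'), ite_self]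
    · intro hj
      exact absurd (mem_univ _) hj
  have hε : ε s (γ * d⁻¹) = 1 := by
    rw [hM2]
    unfold pr
    refine Finset.prod_eq_one fun j _ => ?_
    rw [map_mul, map_inv, hηd, mul_inv_cancel, ite_self]
  have h1 : ε s γ = ε s d := by
    rw [map_mul, map_inv] at hε
    exact mul_inv_eq_one.1 hε
  rw [h1, hmap]
  unfold pr
  refine Finset.prod_congr rfl fun j _ => ?_
  rw [hM2 (δ j) s, pr_dual (hδ j)]
  rcases Int.units_eq_one_or (η j γ) with h2 | h2
  · rw [h2, if_neg (by decide), ite_self]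
  · rw [h2, if_pos rfl]

end Dual

section Equivariant

variable {G : Type*} [Group G] {J T S : Type*} [Fintype J] [DecidableEq S]
  [MulAction G J] [MulAction G T] [MulAction G S]

theorem equivariant (N : Subgroup G) [N.Normal] {p : S → T} (hp : ∀ (g : G) s, p (g • s) = g • p s)
    {η : J → N →* ℤˣ} {ε : S → N →* ℤˣ}
    (hη : ∀ (g : G) j (γ : N), η (g • j) (MulAut.conjNormal g γ) = η j γ)
    (hε : ∀ (g : G) s (γ : N), ε (g • s) (MulAut.conjNormal g γ) = ε s γ)
    (hdual : ∀ j₀ : J, ∃ γ : N, η j₀ γ = -1 ∧ ∀ j, j ≠ j₀ → η j γ = 1)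
    {m : J → T → S} (hm1 : ∀ j t, p (m j t) = t) (hm2 : ∀ (γ : N) s, ε s γ = pr p η m s γ)
    (g : G) (j : J) (t : T) : m (g • j) (g • t) = g • m j t := by
  classical
  obtain ⟨γ₁, h1, h2⟩ := hdual (g • j)
  have hγ₁ : ∀ j', η j' γ₁ = if j' = g • j then -1 else 1 := by
    intro j'
    by_cases hj : j' = g • j
    · rw [if_pos hj, hj, h1]
    · rw [if_neg hj, h2 _ hj]
  set γ₀ : N := (MulAut.conjNormal g)⁻¹ γ₁ with hγ₀
  have h3 : MulAut.conjNormal g γ₀ = γ₁ := by
    rw [hγ₀]
    exact MulAut.apply_inv_self (M := N) _ _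
  have h4 : ∀ j', η j' γ₀ = if j' = j then -1 else 1 := by
    intro j'
    rw [← hη g j' γ₀, h3, hγ₁]
    by_cases hj : j' = j
    · rw [if_pos hj, if_pos (by rw [hj])]
    · rw [if_neg hj, if_neg]
      intro h5
      exact hj (MulAction.injective g h5)
  have h5 := hm2 γ₁ (g • m j t)
  rw [← h3, hε, h3, hm2 γ₀, pr_dual h4, pr_dual hγ₁, hp, hm1, if_pos rfl] at h5
  by_contra hne
  rw [if_neg hne] at h5
  exact absurd h5 (by decide)

end Equivariant

end Pool.Agent.FQR
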