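import Pool.Agent.FQR.Cover
import Pool.Agent.FQC.Sub

/-!
# The square roots of the conjugates of an element of a number field

`K` is a number field in `ℂ`, `π ∈ K` is not zero. `Sq K π` is the set of the pairs `(j, r)`, `j` an
embedding of `K` and `r ^ 2 = j π`; it is a double covering of the set of the embeddings.
-/

set_option autoImplicit false

namespace Pool.Agent.FQR

open Module
open Pool.Agent.FQ (fixG mem_fixG)

/-- automorphisms act on embeddings by composition -/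
@[reducible] noncomputable def embAct (K : Subfield ℂ) : MulAction (RingAut ℂ) (K →+* ℂ) where
  smul τ φ := ((τ : ℂ ≃+* ℂ) : ℂ →+* ℂ).comp φ
  one_smul φ := by
    ext x
    rfl
  mul_smul a b φ := by
    ext x
    rfl

attribute [local instance] embAct

theorem embAct_apply {K : Subfield ℂ} (τ : RingAut ℂ) (j : K →+* ℂ) (x : K) :
    (τ • j) x = τ (j x) := rfl

/-- embeddings with a square root of the image of `π` -/
def Sq (K : Subfield ℂ) (π : K) : Type := {x : (K →+* ℂ) × ℂ // x.2 ^ 2 = x.1 π}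

variable {K : Subfield ℂ} {π : K}

@[reducible] noncomputable def sqAct (K : Subfield ℂ) (π : K) : MulAction (RingAut ℂ) (Sq K π) where
  smul τ x := ⟨(τ • x.1.1, τ x.1.2), by
    change (τ x.1.2) ^ 2 = τ (x.1.1 π)
    rw [← x.2, map_pow]⟩
  one_smul x := Subtype.ext (Prod.ext (one_smul _ _) rfl)
  mul_smul a b x := Subtype.ext (Prod.ext (mul_smul _ _ _) rfl)

attribute [local instance] sqAct

/-- the embedding -/
def qK (x : Sq K π) : K →+* ℂ := x.1.1

/-- the other square root -/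
def νK (x : Sq K π) : Sq K π := ⟨(x.1.1, -x.1.2), by
  change (-x.1.2) ^ 2 = x.1.1 π
  rw [neg_sq]
  exact x.2⟩

theorem isDouble_sq (hπ : π ≠ 0) : IsDouble (RingAut ℂ) (qK (K := K) (π := π)) νK where
  q_smul _ _ := rfl
  ν_smul g b := Subtype.ext (Prod.ext rfl (by
    change -(g b.1.2) = g (-b.1.2)
    rw [map_neg]))
  surj j := by
    obtain ⟨r, hr⟩ := IsAlgClosed.exists_pow_nat_eq (j π) (n := 2) (by norm_num)
    exact ⟨⟨(j, r), hr⟩, rfl⟩
  q_ν _ := rfl
  ν_ne b h := by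
    have h1 : -b.1.2 = b.1.2 := congrArg (fun x : Sq K π => x.1.2) h
    have h2 : b.1.2 = 0 := by
      have h3 : (2 : ℂ) * b.1.2 = 0 := by linear_combination -h1
      exact (mul_eq_zero.1 h3).resolve_left two_ne_zero
    have h3 := b.2
    rw [h2, zero_pow two_ne_zero] at h3
    exact hπ ((map_eq_zero b.1.1).1 h3.symm)
  fib b b' h := by
    have h0 : b'.1.1 = b.1.1 := h
    have h1 : b'.1.2 ^ 2 = b.1.2 ^ 2 := by rw [b.2, b'.2, h0]
    rcases sq_eq_sq_iff_eq_or_eq_neg.1 h1 with h2 | h2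
    · exact Or.inl (Subtype.ext (Prod.ext h0 h2))
    · exact Or.inr (Subtype.ext (Prod.ext h0 h2))

/-- `L` contains all conjugates of `K` -/
theorem fix_emb {L : Subfield ℂ} (hL : ∀ (j : K →+* ℂ) x, j x ∈ L) :
    ∀ γ ∈ fixG L, ∀ j : K →+* ℂ, γ • j = j := by
  intro γ hγ j
  ext x
  exact hγ _ (hL j x)

theorem sgn_sq_eq_one (hπ : π ≠ 0) {L : Subfield ℂ} (hL : ∀ (j : K →+* ℂ) x, j x ∈ L)
    (γ : fixG L) {j : K →+* ℂ} {r : ℂ} (hr : r ^ 2 = j π) :
    (isDouble_sq (K := K) hπ).sgn (fix_emb hL) j γ = 1 ↔ (γ : RingAut ℂ) r = r := by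
  have h1 := (isDouble_sq (K := K) hπ).sgn_eq_one (fix_emb hL) γ ⟨(j, r), hr⟩
  refine h1.trans ?_
  constructor
  · intro h
    exact congrArg (fun x : Sq K π => x.1.2) h
  · intro h
    exact Subtype.ext (Prod.ext (fix_emb hL γ γ.2 j) h)

theorem sgn_sq_eq_neg_one (hπ : π ≠ 0) {L : Subfield ℂ} (hL : ∀ (j : K →+* ℂ) x, j x ∈ L)
    (γ : fixG L) {j : K →+* ℂ} {r : ℂ} (hr : r ^ 2 = j π) :
    (isDouble_sq (K := K) hπ).sgn (fix_emb hL) j γ = -1 ↔ (γ : RingAut ℂ) r = -r := by
  have h1 := (isDouble_sq (K := K) hπ).sgn_eq_neg_one (fix_emb hL) γ ⟨(j, r), hr⟩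
  refine h1.trans ?_
  constructor
  · intro h
    exact congrArg (fun x : Sq K π => x.1.2) h
  · intro h
    exact Subtype.ext (Prod.ext (fix_emb hL γ γ.2 j) h)

/-- the group of the automorphisms over a normal field is normal -/
theorem normal_fixG {L : Subfield ℂ} (hL : ∀ (g : RingAut ℂ), ∀ x ∈ L, g x ∈ L) :
    (fixG L).Normal := by
  refine ⟨fun n hn g => ?_⟩
  rw [mem_fixG]
  intro x hx
  change g (n (g⁻¹ x)) = x
  rw [hn _ (hL g⁻¹ x hx)]
  change (g * g⁻¹) x = x
  rw [mul_inv_cancel]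
  rfl

/-- An equivariant map from the embeddings of `K` to a transitive set `S` gives a subfield of `K` of
degree `|S|`. -/
theorem exists_subfield_of_map (K : Subfield ℂ) [FiniteDimensional ℚ K] {S : Type*}
    [MulAction (RingAut ℂ) S] [MulAction.IsPretransitive (RingAut ℂ) S]
    (m : (K →+* ℂ) → S) (hm : ∀ (g : RingAut ℂ) j, m (g • j) = g • m j) :
    ∃ F : Subfield ℂ, F ≤ K ∧ finrank ℚ F = Nat.card S := by
  have h1 : fixG K ≤ MulAction.stabilizer (RingAut ℂ) (m K.subtype) := by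
    intro τ hτ
    rw [MulAction.mem_stabilizer_iff, ← hm]
    congr 1
    ext x
    exact hτ x x.2
  obtain ⟨F, hFK, hF, -⟩ := Pool.Agent.FQC.exists_subfield K _ h1
  exact ⟨F, hFK, by rw [hF, MulAction.index_stabilizer_of_transitive]⟩

/-- A point fixed by `Aut(ℂ / K)`. -/
theorem exists_fixed_of_map (K : Subfield ℂ) {T S : Type*}
    [MulAction (RingAut ℂ) T] [MulAction (RingAut ℂ) S]
    (m : (K →+* ℂ) → T → S) (hm : ∀ (g : RingAut ℂ) j t, m (g • j) (g • t) = g • m j t) (t : T) :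
    ∀ γ ∈ fixG K, γ • t = t → γ • m K.subtype t = m K.subtype t := by
  intro γ hγ ht
  have h1 : γ • K.subtype = K.subtype := by
    ext x
    exact hγ x x.2
  have h2 := hm γ K.subtype t
  rw [h1, ht] at h2
  exact h2.symm

end Pool.Agent.FQR
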